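import Pool.Agent.H450.OM.Main

set_option autoImplicit false
set_option linter.unusedSectionVars false

namespace Pool.Agent.H450.OM

open Polynomial Module NumberField Pool.Agent.H450.GG

/-- by Hermite's theorem, the class numbers of the fields of bounded discriminant are bounded -/
theorem classNumber_bdd (B : ℕ) : ∃ H : ℕ, ∀ (K : IntermediateField ℚ (AlgebraicClosure ℚ)) (_ : NumberField K),
    |discr K| ≤ B → Nat.card (ClassGroup (𝓞 K)) ≤ H := by
  have hfin := NumberField.finite_of_discr_bdd (AlgebraicClosure ℚ) B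
  have h2 := hfin.image (fun K : { F : IntermediateField ℚ (AlgebraicClosure ℚ) // FiniteDimensional ℚ F } =>
    Nat.card (ClassGroup (𝓞 (K : IntermediateField ℚ (AlgebraicClosure ℚ)))))
  obtain ⟨H, hH⟩ := h2.bddAbove
  refine ⟨H, fun K hK hD => ?_⟩
  apply hH
  exact ⟨⟨K, hK.to_finiteDimensional⟩, hD, rfl⟩

/-- a lower bound for the number of primes up to the `m`-th one -/
theorem exists_nth_bound : ∃ x0 : ℝ, ∀ m : ℕ, x0 ≤ m →
    (Nat.nth Nat.Prime m : ℝ) * Real.log 2 / 2 / Real.log (Nat.nth Nat.Prime m) ≤ m + 1 := by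
  have h1 : ∀ᶠ x : ℝ in Filter.atTop, Real.log (x + 1) ≤ x * Real.log 2 / 2 := by
    have h2 : (fun x : ℝ => Real.log x) =o[Filter.atTop] (fun x : ℝ => x) := Real.isLittleO_log_id_atTop
    have hl : 0 < Real.log 2 := Real.log_pos (by norm_num)
    have h3 := h2.bound (show (0 : ℝ) < Real.log 2 / 4 by positivity)
    have h4 : Filter.Tendsto (fun x : ℝ => x + 1) Filter.atTop Filter.atTop :=
      Filter.tendsto_atTop_add_const_right _ _ Filter.tendsto_id
    filter_upwards [h4.eventually h3, Filter.eventually_ge_atTop (1 : ℝ)] with x hx hx1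
    have h5 := (le_abs_self _).trans hx
    rw [Real.norm_eq_abs, abs_of_nonneg (by linarith : (0 : ℝ) ≤ x + 1)] at h5
    nlinarith
  obtain ⟨x0, hx0⟩ := Filter.eventually_atTop.1 h1
  refine ⟨x0, fun m hm => ?_⟩
  obtain ⟨p, hp⟩ : ∃ p, p = Nat.nth Nat.Prime m := ⟨_, rfl⟩
  have hpm : m + 2 ≤ p := by rw [hp]; exact Nat.add_two_le_nth_prime m
  have hpr : p.Prime := by rw [hp]; exact Nat.prime_nth_prime m
  have hpi : p.primeCounting = m + 1 := by
    have h3 := Nat.primeCounting'_nth_eq m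
    rw [← hp] at h3
    rw [Nat.primeCounting_eq_primeCounting'_succ]
    unfold Nat.primeCounting' at h3 ⊢
    rw [Nat.count_succ, if_pos hpr, h3]
  rw [← hp]
  have h4 := Chebyshev.pi_ge p
  rw [hpi] at h4
  have hpm' : (m : ℝ) + 2 ≤ p := by exact_mod_cast hpm
  have h5 := hx0 p (by linarith)
  have hlp : 0 < Real.log p := Real.log_pos (by exact_mod_cast hpr.one_lt)
  have h6 : (p : ℝ) * Real.log 2 / 2 / Real.log p ≤ (p * Real.log 2 - Real.log (p + 1)) / Real.log p := by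
    apply div_le_div_of_nonneg_right _ hlp.le
    linarith
  push_cast at h4
  linarith

/-- the growth of the rank -/
theorem exists_large (M μ : ℕ) (hM : M ≠ 0) (hμ2 : 2 ≤ μ) (hμ : ∀ t : ℤ, (M : ℤ) ∣ 2 * t → (μ : ℤ) ∣ t) :
    ∃ c : ℝ, 0 < c ∧ ∀ B : ℕ, ∃ K : IntermediateField ℚ (AlgebraicClosure ℚ), ∃ _ : NumberField K,
      finrank ℚ K = (M + 2).choose 2 ∧ (B : ℤ) < |discr K| ∧
      ∃ r : ℕ, c * (Real.log |(discr K : ℝ)| / Real.log (Real.log |(discr K : ℝ)|)) ≤ r ∧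
      ∃ F : Multiplicative (Fin r → ZMod μ) →* ClassGroup (𝓞 K), Function.Injective F := by
  obtain ⟨q, C0, hmain⟩ := main_disc M μ hM (by omega) hμ
  obtain ⟨n, hn⟩ : ∃ n, n = M + 2 := ⟨_, rfl⟩
  rw [← hn] at hmain ⊢
  obtain ⟨d, hd⟩ : ∃ d, d = n.choose 2 := ⟨_, rfl⟩
  rw [← hd] at hmain ⊢
  have hn2 : 2 ≤ n := by omega
  have hd1 : 1 ≤ d := by rw [hd]; exact Nat.choose_pos hn2
  have hl2 : 0 < Real.log 2 := Real.log_pos (by norm_num)
  have hl4 : 1 ≤ Real.log 4 := by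
    have : (4 : ℝ) = 2 ^ 2 := by norm_num
    rw [this, Real.log_pow]
    have := Real.log_two_gt_d9
    push_cast
    linarith
  have hn4 : (1 : ℝ) ≤ (n : ℝ) ^ 4 := one_le_pow₀ (by exact_mod_cast (by omega : 1 ≤ n))
  have hl16 : 0 ≤ Real.log (16 * (n : ℝ) ^ 4) := Real.log_nonneg (by linarith)
  obtain ⟨A, hA⟩ : ∃ A : ℝ, A = (2 * d ^ 2 : ℕ) * (Real.log (16 * (n : ℝ) ^ 4) + 4 * Real.log 4) := ⟨_, rfl⟩
  have hd1' : (1 : ℝ) ≤ (2 * d ^ 2 : ℕ) := by
    have : 1 ≤ d ^ 2 := Nat.one_le_pow _ _ hd1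
    exact_mod_cast (by omega : 1 ≤ 2 * d ^ 2)
  have hA1 : 1 ≤ A := by
    rw [hA]
    nlinarith
  obtain ⟨x0, hx0⟩ := exists_nth_bound
  refine ⟨Real.log 2 / (8 * A), by positivity, fun B => ?_⟩
  obtain ⟨H, hH⟩ := classNumber_bdd (max B 100)
  obtain ⟨x1, hx1⟩ := exists_nat_ge x0
  obtain ⟨N, hN⟩ : ∃ N, N = x1 + 2 * (C0 + q + 2) + H + 1 := ⟨_, rfl⟩
  obtain ⟨K, hK, hfin, ⟨F, hF⟩, hD⟩ := hmain N
  have hμ0 : NeZero μ := ⟨by omega⟩
  have hbig : max (B : ℤ) 100 < |discr K| := by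
    by_contra hcon
    have h1 := hH K hK (by push_cast; exact not_lt.1 hcon)
    have h2 : μ ^ (N - C0) ≤ Nat.card (ClassGroup (𝓞 K)) := by
      have h3 := Nat.card_le_card_of_injective F hF
      rw [Nat.card_congr Multiplicative.toAdd, Nat.card_fun, Nat.card_zmod] at h3
      simpa using h3
    have h3 : N - C0 < μ ^ (N - C0) := Nat.lt_pow_self (by omega)
    omega
  refine ⟨K, hK, hfin, lt_of_le_of_lt (le_max_left _ _) hbig, N - C0, ?_, F, hF⟩
  obtain ⟨p, hp⟩ : ∃ p, p = Nat.nth Nat.Prime (N + 1 + q) := ⟨_, rfl⟩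
  have hpm : N + 1 + q + 2 ≤ p := by rw [hp]; exact Nat.add_two_le_nth_prime _
  have hpr : p.Prime := by rw [hp]; exact Nat.prime_nth_prime _
  have hp1 : (1 : ℝ) ≤ p := by exact_mod_cast hpr.one_le
  have hlp : 0 < Real.log p := Real.log_pos (by exact_mod_cast hpr.one_lt)
  have hπ := hx0 (N + 1 + q) (hx1.trans (by exact_mod_cast (by omega : x1 ≤ N + 1 + q)))
  rw [← hp] at hπ hD
  obtain ⟨L, hL⟩ : ∃ L, L = Real.log |(discr K : ℝ)| := ⟨_, rfl⟩
  rw [← hL]
  have hDbig : (100 : ℝ) < |(discr K : ℝ)| := by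
    exact_mod_cast lt_of_le_of_lt (le_max_right (B : ℤ) 100) hbig
  have hLe : Real.exp 1 ≤ L := by
    rw [hL, Real.le_log_iff_exp_le (by linarith)]
    have h1 : Real.exp 1 < 2.7182818286 := Real.exp_one_lt_d9
    have h2 : Real.exp (Real.exp 1) ≤ Real.exp 3 := Real.exp_le_exp.2 (by linarith)
    have h3 : Real.exp 3 = Real.exp 1 ^ 3 := by
      rw [← Real.exp_nat_mul]
      norm_num
    have h4 : Real.exp 1 ^ 3 ≤ 2.72 ^ 3 := pow_le_pow_left₀ (Real.exp_pos 1).le (by linarith) 3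
    have h5 : (2.72 : ℝ) ^ 3 ≤ 100 := by norm_num
    linarith
  have hLA : L ≤ A * p := by
    have h1 : L ≤ Real.log ((2 * (8 * (n : ℝ) ^ 4 * ((4 : ℝ) ^ (2 * p)) ^ 2)) ^ (2 * d ^ 2)) := by
      rw [hL]
      exact Real.log_le_log (by linarith) hD
    have h2 : 2 * (8 * (n : ℝ) ^ 4 * ((4 : ℝ) ^ (2 * p)) ^ 2) = (16 * (n : ℝ) ^ 4) * (4 : ℝ) ^ (4 * p) := by
      ring
    rw [Real.log_pow, h2, Real.log_mul (by positivity) (by positivity), Real.log_pow] at h1
    refine h1.trans ?_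
    rw [hA]
    push_cast
    have h3 : Real.log (16 * (n : ℝ) ^ 4) ≤ Real.log (16 * (n : ℝ) ^ 4) * p := le_mul_of_one_le_right hl16 hp1
    have h4 : (0 : ℝ) ≤ 2 * (d : ℝ) ^ 2 := by positivity
    nlinarith [mul_le_mul_of_nonneg_left h3 h4]
  have hlL : 1 ≤ Real.log L := by
    rw [Real.le_log_iff_exp_le (by linarith [Real.exp_pos 1])]
    exact hLe
  have hLpos : 0 < L := by linarith [Real.exp_pos 1]
  have hApos : 0 < A * p := by positivity
  have hanti : Real.log (A * p) / (A * p) ≤ Real.log L / L :=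
    Real.log_div_self_antitoneOn (show L ∈ Set.Ici (Real.exp 1) from hLe)
      (show A * p ∈ Set.Ici (Real.exp 1) from hLe.trans hLA) hLA
  have hlog : Real.log p ≤ Real.log (A * p) := Real.log_le_log (by linarith) (by nlinarith)
  have h1 : L / Real.log L ≤ A * p / Real.log p := by
    rw [div_le_div_iff₀ (by linarith) hlp]
    rw [div_le_div_iff₀ hApos hLpos] at hanti
    nlinarith
  have h2 : Real.log 2 / (8 * A) * (A * p / Real.log p) = (p * Real.log 2 / 2 / Real.log p) / 4 := by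
    field_simp
    ring
  have h3 : Real.log 2 / (8 * A) * (L / Real.log L) ≤ (p * Real.log 2 / 2 / Real.log p) / 4 := by
    rw [← h2]
    exact mul_le_mul_of_nonneg_left h1 (by positivity)
  have h4 : (((N + 1 + q : ℕ) : ℝ) + 1) / 4 ≤ ((N - C0 : ℕ) : ℝ) := by
    have h5 : (N + 1 + q) + 1 ≤ 4 * (N - C0) := by omega
    have h6 : (((N + 1 + q : ℕ) : ℝ) + 1) ≤ 4 * ((N - C0 : ℕ) : ℝ) := by exact_mod_cast h5
    linarith
  linarith

end Pool.Agent.H450.OM
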