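import Pool.Agent.H450.GG.Fin

set_option autoImplicit false

namespace Pool.Agent.H450.OM

open Polynomial Module NumberField Pool.Agent.H450.GG

/-- Polynomials with prescribed residues modulo the squares of given primes, with small coefficients. -/
theorem exists_poly_small {ι : Type} [Fintype ι] (n : ℕ) (hn : 1 ≤ n) (P : ι → ℕ) (hP : ∀ i, (P i).Prime)
    (hinj : Function.Injective P) (G : ι → ℤ[X]) (hG : ∀ i, (G i).Monic ∧ (G i).natDegree = n) :
    ∃ f : ℤ[X], f.Monic ∧ f.natDegree = n ∧ (∀ k, |f.coeff k| ≤ ∏ i, (P i : ℤ) ^ 2) ∧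
      ∀ i, ∃ h : ℤ[X], f = G i + C (P i : ℤ) + C ((P i : ℤ) ^ 2) * h := by
  classical
  obtain ⟨f, h1, h2, h3⟩ := exists_poly n hn P hP hinj G hG
  obtain ⟨Q, hQ⟩ : ∃ Q : ℤ, Q = ∏ i, (P i : ℤ) ^ 2 := ⟨_, rfl⟩
  have hQ1 : 1 ≤ Q := by
    rw [hQ]
    apply Finset.prod_induction _ (fun x : ℤ => 1 ≤ x) (fun a b ha hb => one_le_mul_of_one_le_of_one_le ha hb) le_rfl
    intro i _
    exact one_le_pow₀ (by exact_mod_cast (hP i).one_le)
  let g : ℤ[X] := ∑ k ∈ Finset.range n, C (f.coeff k / Q) * X ^ k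
  have hgc : ∀ k, g.coeff k = if k < n then f.coeff k / Q else 0 := by
    intro k
    simp only [g, finsetSum_coeff, coeff_C_mul, coeff_X_pow, mul_ite, mul_one, mul_zero]
    rw [Finset.sum_ite_eq]
    simp only [Finset.mem_range]
  have hdeg : (C Q * g).degree < f.degree := by
    rw [degree_eq_natDegree h1.ne_zero, h2, degree_lt_iff_coeff_zero]
    intro m hm
    rw [coeff_C_mul, hgc, if_neg (by omega), mul_zero]
  have hmon : (f - C Q * g).Monic := h1.sub_of_left hdeg
  refine ⟨f - C Q * g, hmon, ?_, ?_, ?_⟩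
  · rw [← h2]
    exact natDegree_sub_eq_left_of_natDegree_lt (by
      by_cases hz : C Q * g = 0
      · rw [hz, natDegree_zero, h2]
        omega
      · exact natDegree_lt_natDegree hz hdeg)
  · intro k
    rw [← hQ, coeff_sub, coeff_C_mul, hgc]
    by_cases hk : k < n
    · rw [if_pos hk, ← Int.emod_def]
      rw [abs_of_nonneg (Int.emod_nonneg _ (by omega))]
      exact (Int.emod_lt_of_pos _ (by omega)).le
    · rw [if_neg hk, mul_zero, sub_zero]
      rcases lt_or_eq_of_le (not_lt.1 hk) with h | h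
      · rw [coeff_eq_zero_of_natDegree_lt (by omega)]
        simp only [abs_zero]
        omega
      · rw [← h, ← h2, h1.coeff_natDegree]
        simpa using hQ1
  · intro i
    obtain ⟨h, hh⟩ := h3 i
    obtain ⟨t, ht⟩ : (P i : ℤ) ^ 2 ∣ Q := by
      rw [hQ]
      exact Finset.dvd_prod_of_mem _ (Finset.mem_univ i)
    refine ⟨h - C t * g, ?_⟩
    rw [hh, ht]
    simp only [map_mul, map_pow]
    ring

/-- the complex roots are small -/
theorem root_le {f : ℤ[X]} (hf : f.Monic) {B : ℝ} (hB : ∀ k, |(f.coeff k : ℝ)| ≤ B) {z : ℂ}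
    (hz : aeval z f = 0) : ‖z‖ ≤ B + 1 := by
  have h1 : (f.map (algebraMap ℤ ℂ)).IsRoot z := by
    rw [IsRoot, eval_map_algebraMap, hz]
  have hm := hf.map (algebraMap ℤ ℂ)
  have h2 : ‖z‖ < (cauchyBound (f.map (algebraMap ℤ ℂ)) : ℝ) := by
    exact_mod_cast IsRoot.norm_lt_cauchyBound hm.ne_zero h1
  have hB0 : 0 ≤ B := (abs_nonneg _).trans (hB 0)
  refine h2.le.trans ?_
  unfold cauchyBound
  rw [hm.leadingCoeff]
  simp only [nnnorm_one, div_one]
  push_cast
  apply add_le_add _ le_rfl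
  obtain ⟨b, hb⟩ : ∃ b : NNReal, (b : ℝ) = B := ⟨B.toNNReal, Real.coe_toNNReal B hB0⟩
  have h3 : (Finset.range (f.map (algebraMap ℤ ℂ)).natDegree).sup (fun x => ‖(f.map (algebraMap ℤ ℂ)).coeff x‖₊) ≤ b := by
    apply Finset.sup_le
    intro k _
    apply NNReal.coe_le_coe.1
    rw [coe_nnnorm, coeff_map, hb]
    simp only [eq_intCast, Complex.norm_intCast]
    exact hB k
  rw [← hb]
  exact_mod_cast h3

end Pool.Agent.H450.OM
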