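import Mathlib

set_option autoImplicit false

namespace Pool.Agent.H450.OM

open NumberField Module Polynomial

/-- The discriminant of a number field with an integral primitive element of bounded conjugates. -/
theorem abs_discr_le (K : Type) [Field K] [NumberField K] (α : K) (hα : IsIntegral ℤ α)
    (hgen0 : ∀ S : Subfield K, α ∈ S → S = ⊤) (H : ℝ) (hH1 : 1 ≤ H) (hH : ∀ φ : K →ₐ[ℚ] ℂ, ‖φ α‖ ≤ H) :
    |(discr K : ℝ)| ≤ (2 * H) ^ (2 * finrank ℚ K ^ 2) := by
  classical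
  have hαq : IsIntegral ℚ α := hα.tower_top
  have hgen : IntermediateField.adjoin ℚ {α} = ⊤ := by
    have h0 := hgen0 (IntermediateField.adjoin ℚ {α}).toSubfield (IntermediateField.mem_adjoin_simple_self ℚ α)
    rw [eq_top_iff]
    intro z _
    have h1 : z ∈ (IntermediateField.adjoin ℚ {α}).toSubfield := by
      rw [h0]
      trivial
    exact h1
  have hadj : Algebra.adjoin ℚ {α} = ⊤ := by
    rw [← IntermediateField.adjoin_simple_toSubalgebra_of_isAlgebraic hαq.isAlgebraic, hgen]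
    rfl
  obtain ⟨pb, hpb⟩ : ∃ pb : PowerBasis ℚ K, pb.gen = α :=
    ⟨PowerBasis.ofAdjoinEqTop hαq hadj, PowerBasis.ofAdjoinEqTop_gen hαq hadj⟩
  have hdim : finrank ℚ K = pb.dim := pb.finrank
  -- the upper bound
  obtain ⟨e⟩ : Nonempty (Fin pb.dim ≃ (K →ₐ[ℚ] ℂ)) := by
    apply Fintype.card_eq.1
    rw [Fintype.card_fin, AlgHom.card ℚ K ℂ, hdim]
  have h1 := Algebra.discr_powerBasis_eq_prod ℚ ℂ pb e
  have h2 : |((Algebra.discr ℚ pb.basis : ℚ) : ℝ)| ≤ (2 * H) ^ (2 * finrank ℚ K ^ 2) := by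
    have h3 : ‖(algebraMap ℚ ℂ) (Algebra.discr ℚ pb.basis)‖ = |((Algebra.discr ℚ pb.basis : ℚ) : ℝ)| := by
      rw [eq_ratCast, ← Complex.ofReal_ratCast, Complex.norm_real, Real.norm_eq_abs]
    rw [← h3, h1, norm_prod]
    have hb : ∀ i j : Fin pb.dim, ‖(e j pb.gen - e i pb.gen) ^ 2‖ ≤ (2 * H) ^ 2 := by
      intro i j
      rw [norm_pow]
      apply pow_le_pow_left₀ (norm_nonneg _)
      calc ‖e j pb.gen - e i pb.gen‖ ≤ ‖e j pb.gen‖ + ‖e i pb.gen‖ := norm_sub_le _ _
        _ ≤ H + H := by rw [hpb]; exact add_le_add (hH _) (hH _)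
        _ = 2 * H := by ring
    have h21 : (1 : ℝ) ≤ (2 * H) ^ 2 := one_le_pow₀ (by linarith)
    calc ∏ i : Fin pb.dim, ‖∏ j ∈ Finset.Ioi i, (e j pb.gen - e i pb.gen) ^ 2‖
        ≤ ∏ i : Fin pb.dim, ((2 * H) ^ 2) ^ pb.dim := by
          apply Finset.prod_le_prod (fun i _ => norm_nonneg _)
          intro i _
          rw [norm_prod]
          calc ∏ j ∈ Finset.Ioi i, ‖(e j pb.gen - e i pb.gen) ^ 2‖
              ≤ ∏ j ∈ Finset.Ioi i, (2 * H) ^ 2 := Finset.prod_le_prod (fun j _ => norm_nonneg _) (fun j _ => hb i j)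
            _ = ((2 * H) ^ 2) ^ (Finset.Ioi i).card := by rw [Finset.prod_const]
            _ ≤ ((2 * H) ^ 2) ^ pb.dim := by
              apply pow_le_pow_right₀ h21
              calc (Finset.Ioi i).card ≤ (Finset.univ : Finset (Fin pb.dim)).card := Finset.card_le_card (Finset.subset_univ _)
                _ = pb.dim := by rw [Finset.card_univ, Fintype.card_fin]
      _ = (2 * H) ^ (2 * finrank ℚ K ^ 2) := by
          rw [Finset.prod_const, Finset.card_univ, Fintype.card_fin, hdim, ← pow_mul, ← pow_mul]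
          congr 1
          ring
  -- comparison with the integral basis
  let ω := RingOfIntegers.basis K
  let a : 𝓞 K := ⟨α, hα⟩
  obtain ⟨s⟩ : Nonempty (Free.ChooseBasisIndex ℤ (𝓞 K) ≃ Fin pb.dim) := by
    apply Fintype.card_eq.1
    rw [Fintype.card_fin, ← hdim, ← RingOfIntegers.rank, finrank_eq_card_chooseBasisIndex]
  let P : Matrix (Free.ChooseBasisIndex ℤ (𝓞 K)) (Free.ChooseBasisIndex ℤ (𝓞 K)) ℤ :=
    Matrix.of fun i j => ω.repr (a ^ ((s i : Fin pb.dim) : ℕ)) j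
  have hP : ((P.map (algebraMap ℤ ℚ)).map (algebraMap ℚ K)).mulVec (integralBasis K) =
      (pb.basis.reindex s.symm : Free.ChooseBasisIndex ℤ (𝓞 K) → K) := by
    funext i
    rw [Basis.reindex_apply, Equiv.symm_symm, PowerBasis.basis_eq_pow, hpb]
    have h3 : (algebraMap (𝓞 K) K) (∑ j, ω.repr (a ^ ((s i : Fin pb.dim) : ℕ)) j • ω j) = α ^ ((s i : Fin pb.dim) : ℕ) := by
      rw [ω.sum_repr, map_pow]
      rfl
    rw [← h3, map_sum]
    unfold Matrix.mulVec dotProduct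
    refine Finset.sum_congr rfl fun j _ => ?_
    rw [zsmul_eq_mul, map_mul, map_intCast, integralBasis_apply]
    simp only [Matrix.map_apply, eq_intCast, P, Matrix.of_apply, map_intCast]
    rfl
  have h4 := Algebra.discr_of_matrix_mulVec (integralBasis K) (P.map (algebraMap ℤ ℚ))
  rw [hP, ← coe_discr, Basis.coe_reindex, Equiv.symm_symm] at h4
  have h5 : Algebra.discr ℚ (pb.basis ∘ s) = Algebra.discr ℚ pb.basis := by
    have := Algebra.discr_reindex (A := ℚ) pb.basis s.symm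
    rw [Equiv.symm_symm] at this
    exact this
  have h6 : (P.map (algebraMap ℤ ℚ)).det = (P.det : ℚ) := by
    rw [← RingHom.mapMatrix_apply, ← RingHom.map_det]
    rfl
  rw [h5, h6] at h4
  have h7 : Algebra.discr ℚ pb.basis ≠ 0 := Algebra.discr_not_zero_of_basis ℚ pb.basis
  have h8 : P.det ≠ 0 := by
    intro h0
    rw [h0, Int.cast_zero, zero_pow (by norm_num), zero_mul] at h4
    exact h7 h4
  have h9 : (1 : ℝ) ≤ ((P.det : ℤ) : ℝ) ^ 2 := by
    have h10 : (1 : ℤ) ≤ P.det ^ 2 := by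
      have := pow_pos (abs_pos.2 h8) 2
      rw [sq_abs] at this
      omega
    exact_mod_cast h10
  refine le_trans ?_ h2
  rw [h4, Rat.cast_mul, Rat.cast_pow, Rat.cast_intCast, Rat.cast_intCast]
  rw [abs_mul, abs_of_nonneg (by positivity : (0 : ℝ) ≤ ((P.det : ℤ) : ℝ) ^ 2)]
  calc |(discr K : ℝ)| = 1 * |(discr K : ℝ)| := (one_mul _).symm
    _ ≤ _ := mul_le_mul_of_nonneg_right h9 (abs_nonneg _)

end Pool.Agent.H450.OM
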