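import Pool.Agent.H450.OM.Crt
import Pool.Agent.H450.OM.Disc

set_option autoImplicit false
set_option linter.unusedSectionVars false

namespace Pool.Agent.H450.OM

open Polynomial Module NumberField Pool.Agent.H450.GG

section
variable {A : Type} [Field A] [CharZero A] [Algebra.IsAlgebraic ℚ A] [IsAlgClosed A] {n : ℕ} (c : Conf A n)

/-- a number `k` for which `θ i θ j + k (θ i + θ j)` separates the pairs -/
theorem exists_sep : ∃ k : ℕ, k ≤ n ^ 4 ∧ ∀ i j i' j' : Fin n,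
    c.θ i * c.θ j + k * (c.θ i + c.θ j) = c.θ i' * c.θ j' + k * (c.θ i' + c.θ j') →
    c.θ i + c.θ j = c.θ i' + c.θ j' ∧ c.θ i * c.θ j = c.θ i' * c.θ j' := by
  classical
  let Bad : Fin n × Fin n × Fin n × Fin n → Finset ℕ := fun p =>
    (Finset.range (n ^ 4 + 1)).filter fun k : ℕ =>
      c.θ p.1 * c.θ p.2.1 + k * (c.θ p.1 + c.θ p.2.1) = c.θ p.2.2.1 * c.θ p.2.2.2 + k * (c.θ p.2.2.1 + c.θ p.2.2.2) ∧
      ¬ (c.θ p.1 + c.θ p.2.1 = c.θ p.2.2.1 + c.θ p.2.2.2 ∧ c.θ p.1 * c.θ p.2.1 = c.θ p.2.2.1 * c.θ p.2.2.2)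
  have hBad : ∀ p, (Bad p).card ≤ 1 := by
    intro p
    rw [Finset.card_le_one]
    intro k hk l hl
    simp only [Bad, Finset.mem_filter] at hk hl
    obtain ⟨-, hk1, hk2⟩ := hk
    obtain ⟨-, hl1, -⟩ := hl
    by_contra hkl
    apply hk2
    have h1 : ((k : A) - l) * ((c.θ p.1 + c.θ p.2.1) - (c.θ p.2.2.1 + c.θ p.2.2.2)) = 0 := by
      linear_combination hk1 - hl1
    have h2 : (k : A) - l ≠ 0 := by
      rw [sub_ne_zero]
      exact_mod_cast hkl
    have h3 : (c.θ p.1 + c.θ p.2.1) - (c.θ p.2.2.1 + c.θ p.2.2.2) = 0 := by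
      rcases mul_eq_zero.1 h1 with h | h
      · exact absurd h h2
      · exact h
    refine ⟨sub_eq_zero.1 h3, ?_⟩
    linear_combination hk1 - (k : A) * h3
  have hU : (Finset.univ.biUnion Bad).card ≤ n ^ 4 := by
    refine Finset.card_biUnion_le.trans ((Finset.sum_le_card_nsmul _ _ 1 fun p _ => hBad p).trans ?_)
    rw [smul_eq_mul, mul_one, Finset.card_univ]
    simp only [Fintype.card_prod, Fintype.card_fin]
    apply le_of_eq
    ring
  obtain ⟨k, hk1, hk2⟩ : ∃ k ∈ Finset.range (n ^ 4 + 1), k ∉ Finset.univ.biUnion Bad := by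
    apply Finset.exists_mem_notMem_of_card_lt_card
    rw [Finset.card_range]
    omega
  refine ⟨k, by rw [Finset.mem_range] at hk1; omega, fun i j i' j' h => ?_⟩
  by_contra hne
  apply hk2
  rw [Finset.mem_biUnion]
  refine ⟨(i, j, i', j'), Finset.mem_univ _, ?_⟩
  simp only [Bad, Finset.mem_filter]
  exact ⟨hk1, h, hne⟩

/-- a small integral generator of the field of pairs -/
theorem exists_gen : ∃ k : ℕ, k ≤ n ^ 4 ∧ ∃ α : c.K, (α : A) = c.y + k * c.x ∧ IsIntegral ℤ α ∧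
    ∀ S : Subfield c.K, α ∈ S → S = ⊤ := by
  obtain ⟨k, hk, hsep⟩ := exists_sep c
  refine ⟨k, hk, ⟨c.y + k * c.x, add_mem c.y_mem (mul_mem (natCast_mem _ k) c.x_mem)⟩, rfl, ?_, ?_⟩
  · have h0 : IsIntegral ℤ ((k : ℕ) : A) := by
      simpa using isIntegral_algebraMap (R := ℤ) (A := A) (x := (k : ℤ))
    have h1 : IsIntegral ℤ (c.y + k * c.x) := c.y_int.add (h0.mul c.x_int)
    exact (isIntegral_algebraMap_iff (A := c.K) (B := A) (algebraMap c.K A).injective).1 h1
  · intro S hS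
    have hfix : ∀ σ : A ≃ₐ[ℚ] A, (∀ z ∈ IntermediateField.adjoin ℚ {c.y + k * c.x}, σ z = z) → σ c.x = c.x ∧ σ c.y = c.y := by
      intro σ hσ
      have h1 := hσ _ (IntermediateField.mem_adjoin_simple_self ℚ _)
      unfold Conf.x Conf.y at h1 ⊢
      rw [map_add, map_mul, map_mul, map_natCast, map_add, c.pm_spec, c.pm_spec] at h1
      obtain ⟨h2, h3⟩ := hsep _ _ _ _ h1
      rw [map_add, map_mul, c.pm_spec, c.pm_spec]
      exact ⟨h2, h3⟩
    have hle : c.K ≤ IntermediateField.adjoin ℚ {c.y + k * c.x} := by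
      unfold Conf.K
      rw [IntermediateField.adjoin_le_iff]
      rintro z (rfl | hz)
      · exact mem_of_fixed _ _ fun σ hσ => (hfix σ hσ).1
      · rw [Set.mem_singleton_iff] at hz
        rw [hz]
        exact mem_of_fixed _ _ fun σ hσ => (hfix σ hσ).2
    let T : IntermediateField ℚ A := (S.map (algebraMap c.K A)).toIntermediateField (fun q => by
      refine ⟨(q : c.K), ?_, ?_⟩
      · exact SubfieldClass.ratCast_mem S q
      · rw [map_ratCast, eq_ratCast])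
    have hT : IntermediateField.adjoin ℚ {c.y + k * c.x} ≤ T := by
      rw [IntermediateField.adjoin_le_iff]
      rintro z hz
      rw [Set.mem_singleton_iff] at hz
      rw [hz]
      exact ⟨_, hS, rfl⟩
    rw [eq_top_iff]
    intro z _
    obtain ⟨w, hw, hwz⟩ := hT (hle z.2)
    have h3 : w = z := Subtype.ext hwz
    rw [← h3]
    exact hw

/-- the discriminant of the field of pairs -/
theorem discr_le {f : ℤ[X]} (hf : f.Monic) (hθ : Rts f c.θ) (hn : 1 ≤ n) {B : ℝ} (hB1 : 1 ≤ B)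
    (hB : ∀ k, |(f.coeff k : ℝ)| ≤ B) :
    |(discr c.K : ℝ)| ≤ (2 * (8 * n ^ 4 * B ^ 2)) ^ (2 * (n.choose 2) ^ 2) := by
  obtain ⟨k, hk, α, hα, hint, hgen⟩ := exists_gen c
  have hn' : (1 : ℝ) ≤ n := by exact_mod_cast hn
  have hn4 : (1 : ℝ) ≤ (n : ℝ) ^ 4 := one_le_pow₀ hn'
  have hk' : (k : ℝ) ≤ (n : ℝ) ^ 4 := by exact_mod_cast hk
  rw [← c.finrank_K]
  apply abs_discr_le c.K α hint hgen
  · nlinarith [one_le_pow₀ hB1 (n := 2)]
  · intro φ
    have hK : Algebra.IsAlgebraic c.K A := Algebra.IsAlgebraic.tower_top (K := ℚ) c.K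
    obtain ⟨ψ, hψ⟩ := IsAlgClosed.surjective_domRestrict_of_isAlgebraic (K := ℚ) (L := c.K) (M := ℂ) (E := A) φ
    have h1 : φ α = ψ (c.θ c.i0) * ψ (c.θ c.i1) + k * (ψ (c.θ c.i0) + ψ (c.θ c.i1)) := by
      have h2 : φ α = ψ (α : A) := by
        rw [← hψ]
        rfl
      rw [h2, hα]
      unfold Conf.x Conf.y
      simp only [map_add, map_mul, map_natCast]
    have h2 : ∀ i, ‖ψ (c.θ i)‖ ≤ B + 1 := by
      intro i
      apply root_le hf hB
      have h3 := hθ.root i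
      have h4 : aeval (ψ (c.θ i)) f = ψ (aeval (c.θ i) f) := by
        have := Polynomial.aeval_algHom_apply (ψ.restrictScalars ℤ) (c.θ i) f
        exact this
      rw [h4, h3, map_zero]
    have h3 : ‖φ α‖ ≤ (B + 1) * (B + 1) + k * ((B + 1) + (B + 1)) := by
      rw [h1]
      refine (norm_add_le _ _).trans ?_
      apply add_le_add
      · rw [norm_mul]
        exact mul_le_mul (h2 _) (h2 _) (norm_nonneg _) (by linarith)
      · rw [norm_mul, Complex.norm_natCast]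
        apply mul_le_mul_of_nonneg_left _ (Nat.cast_nonneg k)
        exact (norm_add_le _ _).trans (add_le_add (h2 _) (h2 _))
    refine h3.trans ?_
    have h4 : (B + 1) * (B + 1) ≤ 4 * B ^ 2 := by nlinarith
    have h5 : (B + 1) + (B + 1) ≤ 4 * B ^ 2 := by nlinarith
    calc (B + 1) * (B + 1) + k * ((B + 1) + (B + 1)) ≤ 4 * B ^ 2 + (n : ℝ) ^ 4 * (4 * B ^ 2) :=
          add_le_add h4 (mul_le_mul hk' h5 (by linarith) (by positivity))
      _ ≤ 8 * n ^ 4 * B ^ 2 := by nlinarith [mul_le_mul_of_nonneg_right hn4 (by positivity : (0 : ℝ) ≤ 4 * B ^ 2)]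

end

end Pool.Agent.H450.OM
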