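import Pool.Agent.H450.OM.Gen

set_option autoImplicit false
set_option linter.unusedSectionVars false

namespace Pool.Agent.H450.OM

open Polynomial Module NumberField Pool.Agent.H450.GG

/-- the product of distinct primes up to `x` is at most `4 ^ x` -/
theorem prod_primes_le {ι : Type} [Fintype ι] (P : ι → ℕ) (hP : ∀ i, (P i).Prime)
    (hinj : Function.Injective P) (x : ℕ) (hx : ∀ i, P i ≤ x) : ∏ i, P i ≤ 4 ^ x := by
  classical
  refine le_trans ?_ (primorial_le_four_pow x)
  unfold primorial
  rw [← Finset.prod_image (s := Finset.univ) (g := P) (f := fun p : ℕ => p) (fun a _ b _ h => hinj h)]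
  apply Finset.prod_le_prod_of_subset_of_one_le'
  · intro p hp
    rw [Finset.mem_image] at hp
    obtain ⟨i, -, rfl⟩ := hp
    rw [Finset.mem_filter, Finset.mem_range]
    exact ⟨by have := hx i; omega, hP i⟩
  · intro p hp _
    rw [Finset.mem_filter] at hp
    exact hp.2.one_le

/-- fields of degree `C(M+2, 2)` with `N - C0` independent classes and controlled discriminant -/
theorem main_disc (M μ : ℕ) (hM : M ≠ 0) (hμ0 : μ ≠ 0) (hμ : ∀ t : ℤ, (M : ℤ) ∣ 2 * t → (μ : ℤ) ∣ t) :
    ∃ q C0 : ℕ, ∀ N : ℕ, ∃ K : IntermediateField ℚ (AlgebraicClosure ℚ), ∃ _ : NumberField K,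
      finrank ℚ K = (M + 2).choose 2 ∧
      (∃ F : Multiplicative (Fin (N - C0) → ZMod μ) →* ClassGroup (𝓞 K), Function.Injective F) ∧
      |(discr K : ℝ)| ≤ (2 * (8 * ((M + 2 : ℕ) : ℝ) ^ 4 * ((4 : ℝ) ^ (2 * Nat.nth Nat.Prime (N + 1 + q))) ^ 2)) ^
        (2 * ((M + 2).choose 2) ^ 2) := by
  classical
  have : NeZero μ := ⟨hμ0⟩
  have := alg_closure
  obtain ⟨n, hn⟩ : ∃ n, n = M + 2 := ⟨_, rfl⟩
  rw [← hn]
  obtain ⟨q, hq, hnq, hMq⟩ := exists_q M n hM
  refine ⟨q, M ^ (n.choose 2) * 2 ^ (n ^ 4), ?_⟩
  intro N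
  have hqF : Fact q.Prime := ⟨hq⟩
  -- the primes
  let r : ℕ → ℕ := fun k => Nat.nth Nat.Prime (k + q)
  have hr : ∀ k, (r k).Prime := fun k => Nat.prime_nth_prime _
  have hrmono : ∀ k l, k ≤ l → r k ≤ r l := by
    intro k l h
    apply (Nat.nth_strictMono Nat.infinite_setOfPred_prime).monotone
    omega
  have hrinj : Function.Injective r := by
    intro k l h
    have := (Nat.nth_strictMono Nat.infinite_setOfPred_prime).injective h
    omega
  have hrq : ∀ k, q + 2 ≤ r k := by
    intro k
    have := Nat.add_two_le_nth_prime (k + q)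
    show q + 2 ≤ Nat.nth Nat.Prime (k + q)
    omega
  let Pr : Fin N ⊕ Fin 3 → ℕ := Sum.elim (fun k => r k) ![q, r N, r (N + 1)]
  let G : Fin N ⊕ Fin 3 → ℤ[X] := Sum.elim (fun _ => X ^ M * (X - C 1) * (X + C 1))
    ![∏ j : Fin n, (X - C ((j : ℕ) : ℤ)), X ^ n, X ^ (n - 1) * (X - C 1)]
  have hPr : ∀ i, (Pr i).Prime := by
    rintro (k | k)
    · exact hr k
    · fin_cases k
      · exact hq
      · exact hr N
      · exact hr (N + 1)
  have hPmax : ∀ i, Pr i ≤ r (N + 1) := by
    rintro (k | k)
    · exact hrmono _ _ (by have := k.2; omega)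
    · fin_cases k
      · have := hrq (N + 1)
        show q ≤ r (N + 1)
        omega
      · exact hrmono _ _ (by omega)
      · exact le_refl (r (N + 1))
  have hPinj : Function.Injective Pr := by
    have hrne : ∀ k, r k ≠ q := fun k => by have := hrq k; omega
    rintro (k | k) (l | l) h
    · have h1 : r k = r l := h
      have h2 := hrinj h1
      rw [Fin.ext h2]
    · exfalso
      fin_cases l
      · exact hrne k h
      · have h1 : r k = r N := h
        have := hrinj h1
        have := k.2
        omega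
      · have h1 : r k = r (N + 1) := h
        have := hrinj h1
        have := k.2
        omega
    · exfalso
      fin_cases k
      · exact hrne l h.symm
      · have h1 : r N = r l := h
        have := hrinj h1
        have := l.2
        omega
      · have h1 : r (N + 1) = r l := h
        have := hrinj h1
        have := l.2
        omega
    · fin_cases k <;> fin_cases l
      · rfl
      · exact absurd h.symm (hrne N)
      · exact absurd h.symm (hrne (N + 1))
      · exact absurd h (hrne N)
      · rfl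
      · have h1 : r N = r (N + 1) := h
        have := hrinj h1
        omega
      · exact absurd h (hrne (N + 1))
      · have h1 : r (N + 1) = r N := h
        have := hrinj h1
        omega
      · rfl
  have hG : ∀ i, (G i).Monic ∧ (G i).natDegree = n := by
    rintro (k | k)
    · have := monic_deg_A M
      rw [← hn] at this
      exact this
    · fin_cases k
      · exact monic_deg_D n
      · exact ⟨monic_X_pow n, natDegree_X_pow n⟩
      · have := monic_deg_B (n - 1)
        have h1 : n - 1 + 1 = n := by omega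
        rw [h1] at this
        exact this
  obtain ⟨f, hfm, hfd, hfc, hf⟩ := exists_poly_small n (by omega) Pr hPr hPinj G hG
  obtain ⟨θ, hθ⟩ := exists_rts (A := AlgebraicClosure ℚ) hfm hfd
  obtain ⟨h0, hf0⟩ := hf (Sum.inr 0)
  obtain ⟨h1, hf1⟩ := hf (Sum.inr 1)
  obtain ⟨h2, hf2⟩ := hf (Sum.inr 2)
  have hqN : Fact (r N).Prime := ⟨hr N⟩
  have hqN1 : Fact (r (N + 1)).Prime := ⟨hr (N + 1)⟩
  obtain ⟨hinj, hQ⟩ := type_D q hθ hnq hf0
  let c : Conf (AlgebraicClosure ℚ) n :=
    { θ := θ
      inj := hinj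
      int := hθ.integral
      perm := hθ.perm
      two := fun i j i' j' hij hij' => two_trans (by omega) hθ hinj (r N) (r (N + 1)) hf1 hf2 i j i' j' hij hij'
      i0 := ⟨0, by omega⟩
      i1 := ⟨1, by omega⟩
      h01 := by intro h; simpa using congrArg Fin.val h }
  have hP : ∀ k : Fin N, Fact (r k).Prime := fun k => ⟨hr k⟩
  have hA : ∀ k : Fin N, ∃ a b, TypeA c M (r k) a b := by
    intro k
    obtain ⟨h', hf'⟩ := hf (Sum.inl k)
    have h2r : 2 < r k := by have := hrq k; have := hq.two_le; omega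
    obtain ⟨a, b, hab, ha, hb, hqa, hqb, hs⟩ := type_A (r k) hθ (by omega : 1 ≤ M) h2r hf'
    exact ⟨a, b, h2r, hab, ha, hb, hqa, hs⟩
  choose a b hA using hA
  have hex := rank_of_conf c (μ := μ) (fun k : Fin N => r k) a b hM hn
    (fun k l h => Fin.ext (hrinj h)) hA q (by omega) hMq hQ hμ
  refine ⟨c.K, c.nf, c.finrank_K, hex, ?_⟩
  -- the discriminant
  refine discr_le c hfm hθ (by omega) (one_le_pow₀ (by norm_num)) ?_
  intro k
  have h3 := prod_primes_le Pr hPr hPinj (r (N + 1)) hPmax
  have h4 : |f.coeff k| ≤ (4 : ℤ) ^ (2 * r (N + 1)) := by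
    refine (hfc k).trans ?_
    rw [Finset.prod_pow, mul_comm 2, pow_mul]
    apply pow_le_pow_left₀
    · exact Finset.prod_nonneg fun i _ => Int.natCast_nonneg _
    · exact_mod_cast h3
  exact_mod_cast h4

end Pool.Agent.H450.OM
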